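import Mathlib

/-!
Module DIO (TEAM-J), part 3: the escape rate of the critical orbit is different from `log 2`.
-/

set_option autoImplicit false
open Filter Topology

namespace Pool.Agent.H354R2.Dio

/-- integers of the form `4v²-4Q²+kQ`, `k` odd, are not small -/
theorem int_gap (k : ℤ) (hk : Odd k) (v Q : ℤ) (hQ : 8 * (|k| + 1) ^ 2 ≤ Q) :
    Q ≤ 2 * |4 * v ^ 2 + k * Q - 4 * Q ^ 2| := by
  have hk0 : 0 ≤ |k| := abs_nonneg k
  have hQ0 : 0 < Q := by nlinarith
  obtain ⟨r, hr⟩ := hk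
  set j : ℤ := |v| - Q with hj
  have hv : v ^ 2 = (Q + j) ^ 2 := by
    rw [hj, ← sq_abs v]
    ring
  have hexp : 4 * v ^ 2 + k * Q - 4 * Q ^ 2 = Q * (8 * j + k) + 4 * j ^ 2 := by
    rw [hv]
    ring
  have hjQ : -Q ≤ j := by
    have := abs_nonneg v
    omega
  have hk1 : k ≤ |k| := le_abs_self k
  have hk2 : -|k| ≤ k := neg_abs_le k
  rw [hexp]
  rcases le_or_gt j (-(|k| + 2)) with h1 | h1
  · -- j very negative
    have h2 : Q * (8 * j + k) + 4 * j ^ 2 ≤ -Q := by
      have h3 : j * j ≤ -j * Q := by nlinarith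
      have h4 : Q * (4 * j + k) ≤ Q * (-1) := mul_le_mul_of_nonneg_left (by linarith) hQ0.le
      nlinarith
    have h5 : Q ≤ |Q * (8 * j + k) + 4 * j ^ 2| := by
      rw [le_abs]
      right
      linarith
    linarith [abs_nonneg (Q * (8 * j + k) + 4 * j ^ 2)]
  · rcases le_or_gt (|k| + 2) j with h2 | h2
    · have h3 : Q ≤ Q * (8 * j + k) + 4 * j ^ 2 := by
        have h4 : Q * 1 ≤ Q * (8 * j + k) := mul_le_mul_of_nonneg_left (by linarith) hQ0.le
        nlinarith
      have h5 : Q ≤ |Q * (8 * j + k) + 4 * j ^ 2| := h3.trans (le_abs_self _)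
      linarith [abs_nonneg (Q * (8 * j + k) + 4 * j ^ 2)]
    · have hjj : j ^ 2 ≤ (|k| + 1) ^ 2 := by
        apply sq_le_sq'
        · linarith
        · linarith
      have hjQ2 : 8 * j ^ 2 ≤ Q := by linarith
      have hne : 8 * j + k ≠ 0 := by omega
      rcases lt_or_gt_of_ne hne with h3 | h3
      · have h4 : Q * (8 * j + k) ≤ Q * (-1) := mul_le_mul_of_nonneg_left (by omega) hQ0.le
        have h5 : Q - 4 * j ^ 2 ≤ |Q * (8 * j + k) + 4 * j ^ 2| := by
          rw [le_abs]
          right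
          linarith
        linarith
      · have h4 : Q * 1 ≤ Q * (8 * j + k) := mul_le_mul_of_nonneg_left (by omega) hQ0.le
        have h5 : Q ≤ |Q * (8 * j + k) + 4 * j ^ 2| := by
          rw [le_abs]
          left
          nlinarith
        linarith [abs_nonneg (Q * (8 * j + k) + 4 * j ^ 2)]

/-- `q n = 2^(2^n)` -/
def qq (n : ℕ) : ℝ := 2 ^ (2 ^ n)

theorem qq_succ (n : ℕ) : qq (n + 1) = qq n ^ 2 := by
  rw [qq, qq, ← pow_mul, pow_succ]

theorem qq_pos (n : ℕ) : 0 < qq n := by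
  rw [qq]; positivity

theorem qq_ge (n : ℕ) : (n : ℝ) ≤ qq n := by
  have h1 : n < 2 ^ n := Nat.lt_two_pow_self
  have h2 : 2 ^ n < 2 ^ (2 ^ n) := Nat.lt_two_pow_self
  have h3 : n ≤ 2 ^ (2 ^ n) := (h1.trans h2).le
  rw [qq]
  exact_mod_cast h3

theorem qq_tendsto : Tendsto qq atTop atTop :=
  tendsto_atTop_mono qq_ge tendsto_natCast_atTop_atTop

theorem exists_root_gt (u : ℝ) (hu : 1 < u) (N : ℕ) (hN : N ≠ 0) : ∃ V : ℝ, 1 < V ∧ V ^ N = u := by
  refine ⟨u ^ ((N : ℝ)⁻¹), ?_, Real.rpow_inv_natCast_pow (by linarith) hN⟩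
  exact Real.one_lt_rpow hu (by positivity)

theorem exists_root_lt (u : ℝ) (hu0 : 0 < u) (hu : u < 1) (N : ℕ) (hN : N ≠ 0) :
    ∃ V : ℝ, 0 < V ∧ V < 1 ∧ V ^ N = u := by
  refine ⟨u ^ ((N : ℝ)⁻¹), Real.rpow_pos_of_pos hu0 _, ?_, Real.rpow_inv_natCast_pow hu0.le hN⟩
  exact Real.rpow_lt_one hu0.le hu (by positivity)

/-- the dichotomy for the rescaled orbit -/
theorem escape (t : ℕ → ℝ) (κ : ℝ) (ht : ∀ n, t (n + 1) = t n ^ 2 + κ / qq n ^ 2)
    (hgap : ∀ᶠ n in atTop, 1 / (8 * qq n) ≤ |t n - 1|) :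
    (∃ V : ℝ, 1 < V ∧ ∀ᶠ n : ℕ in atTop, V ^ (2 ^ n) ≤ t n) ∨
    (∃ W : ℝ, 0 < W ∧ W < 1 ∧ ∀ᶠ n : ℕ in atTop, |t n| ≤ W ^ (2 ^ n)) := by
  have hlarge : ∀ᶠ n in atTop, 16 * (1 + |κ|) ≤ qq n := qq_tendsto.eventually_ge_atTop _
  obtain ⟨n0, hn0⟩ := (hgap.and hlarge).exists_forall_of_atTop
  have hκ : 0 ≤ |κ| := abs_nonneg κ
  have hκ1 : -|κ| ≤ κ := neg_abs_le κ
  by_cases hA : ∃ n1, n0 ≤ n1 ∧ 1 < t n1
  · left
    obtain ⟨n1, hn1, ht1⟩ := hA
    set u : ℝ := t n1 - 1 / (16 * qq n1) with hu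
    have hq := qq_pos n1
    have hu1 : 1 < u := by
      have h1 := (hn0 n1 hn1).1
      rw [abs_of_pos (by linarith)] at h1
      have h2 : 1 / (8 * qq n1) = 2 * (1 / (16 * qq n1)) := by field_simp; norm_num
      have h3 : 0 < 1 / (16 * qq n1) := by positivity
      rw [hu]
      linarith
    have hstep : ∀ n, n0 ≤ n → 1 < t n - 1 / (16 * qq n) →
        (t n - 1 / (16 * qq n)) ^ 2 ≤ t (n + 1) - 1 / (16 * qq (n + 1)) := by
      intro n hn h1
      have hqn := qq_pos n
      have hql := (hn0 n hn).2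
      have h2 : 0 < 1 / (16 * qq n) := by positivity
      have htn : 1 < t n := by linarith
      rw [ht, qq_succ]
      have h3 : (t n - 1 / (16 * qq n)) ^ 2
          = t n ^ 2 - (t n * qq n / 8 - 1 / 256) / qq n ^ 2 := by
        field_simp
        ring
      have h4 : t n ^ 2 + κ / qq n ^ 2 - 1 / (16 * qq n ^ 2)
          = t n ^ 2 - (1 / 16 - κ) / qq n ^ 2 := by
        field_simp
        ring
      rw [h3, h4]
      have h5 : 1 / 16 - κ ≤ t n * qq n / 8 - 1 / 256 := by nlinarith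
      have h6 : (1 / 16 - κ) / qq n ^ 2 ≤ (t n * qq n / 8 - 1 / 256) / qq n ^ 2 :=
        div_le_div_of_nonneg_right h5 (by positivity)
      linarith
    have hind : ∀ j, u ^ (2 ^ j) ≤ t (n1 + j) - 1 / (16 * qq (n1 + j)) := by
      intro j
      induction j with
      | zero => simp [hu]
      | succ j ih =>
        have h1 : 1 < u ^ (2 ^ j) := one_lt_pow₀ hu1 (by positivity)
        have h2 := hstep (n1 + j) (by omega) (h1.trans_le ih)
        calc u ^ (2 ^ (j + 1)) = (u ^ (2 ^ j)) ^ 2 := by rw [← pow_mul, pow_succ]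
          _ ≤ (t (n1 + j) - 1 / (16 * qq (n1 + j))) ^ 2 :=
              pow_le_pow_left₀ (by positivity) ih 2
          _ ≤ _ := h2
    obtain ⟨V, hV1, hV⟩ := exists_root_gt u hu1 (2 ^ n1) (by positivity)
    refine ⟨V, hV1, ?_⟩
    filter_upwards [eventually_ge_atTop n1] with n hn
    obtain ⟨j, rfl⟩ := Nat.exists_eq_add_of_le hn
    have h1 := hind j
    have h2 : 0 < 1 / (16 * qq (n1 + j)) := by
      have := qq_pos (n1 + j)
      positivity
    rw [pow_add, pow_mul, hV]
    linarith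
  · right
    push Not at hA
    -- general contraction
    have hcontr : ∀ (c : ℝ) (n1 : ℕ), 0 < c → |t n1| + c / qq n1 < 1 →
        (∀ n, n1 ≤ n → |κ| + c ≤ 2 * c * (|t n| * qq n) + c ^ 2) →
        ∃ W : ℝ, 0 < W ∧ W < 1 ∧ ∀ᶠ n : ℕ in atTop, |t n| ≤ W ^ (2 ^ n) := by
      intro c n1 hc hz hcond
      set z : ℝ := |t n1| + c / qq n1 with hzd
      have hq1 := qq_pos n1
      have hz0 : 0 < z := by
        have : 0 < c / qq n1 := by positivity
        have := abs_nonneg (t n1)
        linarith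
      have hind : ∀ j, |t (n1 + j)| + c / qq (n1 + j) ≤ z ^ (2 ^ j) := by
        intro j
        induction j with
        | zero => simp [hzd]
        | succ j ih =>
          have hq := qq_pos (n1 + j)
          have h1 := hcond (n1 + j) (by omega)
          have h2 : |t (n1 + (j + 1))| ≤ t (n1 + j) ^ 2 + |κ| / qq (n1 + j) ^ 2 := by
            rw [← add_assoc, ht]
            refine (abs_add_le _ _).trans ?_
            rw [abs_of_nonneg (sq_nonneg _), abs_div, abs_of_pos (by positivity : 0 < qq (n1 + j) ^ 2)]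
          have h3 : (|t (n1 + j)| + c / qq (n1 + j)) ^ 2
              = t (n1 + j) ^ 2 + (2 * c * (|t (n1 + j)| * qq (n1 + j)) + c ^ 2) / qq (n1 + j) ^ 2 := by
            rw [← sq_abs (t (n1 + j))]
            field_simp
            ring
          have h4 : |t (n1 + (j + 1))| + c / qq (n1 + (j + 1))
              ≤ (|t (n1 + j)| + c / qq (n1 + j)) ^ 2 := by
            rw [h3, ← add_assoc, qq_succ]
            have h5 : (|κ| + c) / qq (n1 + j) ^ 2
                ≤ (2 * c * (|t (n1 + j)| * qq (n1 + j)) + c ^ 2) / qq (n1 + j) ^ 2 :=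
              div_le_div_of_nonneg_right h1 (by positivity)
            rw [add_div] at h5
            rw [← add_assoc] at h2
            linarith
          have h6 : 0 ≤ |t (n1 + j)| + c / qq (n1 + j) := by positivity
          calc |t (n1 + (j + 1))| + c / qq (n1 + (j + 1)) ≤ (|t (n1 + j)| + c / qq (n1 + j)) ^ 2 := h4
            _ ≤ (z ^ (2 ^ j)) ^ 2 := pow_le_pow_left₀ h6 ih 2
            _ = z ^ (2 ^ (j + 1)) := by rw [← pow_mul, pow_succ]
      obtain ⟨W, hW0, hW1, hW⟩ := exists_root_lt z hz0 hz (2 ^ n1) (by positivity)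
      refine ⟨W, hW0, hW1, ?_⟩
      filter_upwards [eventually_ge_atTop n1] with n hn
      obtain ⟨j, rfl⟩ := Nat.exists_eq_add_of_le hn
      have h1 := hind j
      have h2 : 0 < c / qq (n1 + j) := by
        have := qq_pos (n1 + j)
        positivity
      rw [pow_add, pow_mul, hW]
      linarith
    by_cases hB : ∃ n1, n0 ≤ n1 ∧ |t n1| * qq n1 ≤ 8 * |κ| + 1
    · obtain ⟨n1, hn1, hsmall⟩ := hB
      have hq1 := qq_pos n1
      have hql := (hn0 n1 hn1).2
      refine hcontr (1 + |κ|) n1 (by linarith) ?_ ?_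
      · have h1 : |t n1| + (1 + |κ|) / qq n1 = (|t n1| * qq n1 + (1 + |κ|)) / qq n1 := by
          field_simp
        rw [h1, div_lt_one hq1]
        linarith
      · intro n _
        have h1 : 0 ≤ 2 * (1 + |κ|) * (|t n| * qq n) := by
          have := qq_pos n
          positivity
        nlinarith
    · push Not at hB
      have hn1 : n0 ≤ n0 + 1 := by omega
      have hq1 := qq_pos (n0 + 1)
      have hq0 := qq_pos n0
      refine hcontr (1 / 16) (n0 + 1) (by norm_num) ?_ ?_
      · have hle := hA (n0 + 1) hn1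
        have hg := (hn0 (n0 + 1) hn1).1
        have hql := (hn0 (n0 + 1) hn1).2
        have hup : t (n0 + 1) ≤ 1 - 1 / (8 * qq (n0 + 1)) := by
          rw [abs_of_nonpos (by linarith)] at hg
          linarith
        have hlo : -(1 / 2) ≤ t (n0 + 1) := by
          rw [ht, ← qq_succ]
          have h1 : -(|κ| / qq (n0 + 1)) ≤ κ / qq (n0 + 1) := by
            rw [← neg_div]
            exact div_le_div_of_nonneg_right hκ1 hq1.le
          have h2 : |κ| / qq (n0 + 1) ≤ 1 / 2 := by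
            rw [div_le_div_iff₀ hq1 (by norm_num)]
            linarith
          have := sq_nonneg (t n0)
          linarith
        have hd : 1 / (8 * qq (n0 + 1)) = 2 * (1 / 16 / qq (n0 + 1)) := by field_simp; norm_num
        have hp : 0 < 1 / 16 / qq (n0 + 1) := by positivity
        have hs : 1 / 16 / qq (n0 + 1) ≤ 1 / 16 := by
          apply div_le_self (by norm_num)
          linarith
        have habs : |t (n0 + 1)| ≤ 1 - 1 / (8 * qq (n0 + 1)) := by
          rw [abs_le]
          constructor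
          · linarith
          · exact hup
        linarith
      · intro n hn
        have h1 := hB n (by omega)
        nlinarith

end Pool.Agent.H354R2.Dio
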