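import Pool.Agent.H354R2.Dio.Runge
import Pool.Agent.H354R2.Dio.Escape
import Pool.Agent.H484R2.Defs

/-!
Module DIO (TEAM-J), part 4: independence modulo squares of the critical orbit.
-/

set_option autoImplicit false
open Polynomial Filter Topology Pool.Agent.H484R2

namespace Pool.Agent.H354R2.Dio

noncomputable def fz (b c : ℤ) : ℤ[X] := X ^ 2 + C b * X + C c

theorem fz_map (b c : ℤ) : (fz b c).map (Int.castRingHom ℚ) = fq b c := by
  rw [fz, fq]
  simp

theorem fz_natDegree (b c : ℤ) : (fz b c).natDegree = 2 := by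
  rw [fz]
  compute_degree!

theorem fz_monic (b c : ℤ) : (fz b c).Monic := by
  have h : (fz b c).coeff 2 = 1 := by
    rw [fz, coeff_add, coeff_add, coeff_X_pow, coeff_C_mul, coeff_X, coeff_C]
    norm_num
  rw [Monic, leadingCoeff, fz_natDegree, h]

theorem fz_aeval (b c : ℤ) (x : ℚ) : aeval x (fz b c) = F b c x := by
  rw [fz, F]
  simp

noncomputable def it (b c : ℤ) (i : ℕ) : ℤ[X] := ((fz b c).comp)^[i] X

theorem it_succ (b c : ℤ) (i : ℕ) : it b c (i + 1) = (fz b c).comp (it b c i) := by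
  rw [it, it, Function.iterate_succ_apply']

theorem it_natDegree (b c : ℤ) (i : ℕ) : (it b c i).natDegree = 2 ^ i := by
  rw [it, natDegree_iterate_comp, fz_natDegree, natDegree_X, mul_one]

theorem it_monic (b c : ℤ) (i : ℕ) : (it b c i).Monic := by
  induction i with
  | zero => exact monic_X
  | succ i ih =>
    rw [it_succ]
    exact (fz_monic b c).comp ih (by rw [it_natDegree]; positivity)

theorem it_map (b c : ℤ) (i : ℕ) :
    (it b c i).map (Int.castRingHom ℚ) = ((fq b c).comp)^[i] X := by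
  induction i with
  | zero => simp [it]
  | succ i ih => rw [it_succ, map_comp, fz_map, ih, Function.iterate_succ_apply']

theorem it_aeval (b c : ℤ) (i : ℕ) (x : ℚ) : aeval x (it b c i) = (F b c)^[i] x := by
  induction i with
  | zero => simp [it]
  | succ i ih => rw [it_succ, aeval_comp, ih, fz_aeval, Function.iterate_succ_apply']

/-- `F_I = ∏_{i∈I} f^i` -/
noncomputable def FI (b c : ℤ) (I : Finset ℕ) : ℤ[X] := ∏ i ∈ I, it b c i

theorem FI_monic (b c : ℤ) (I : Finset ℕ) : (FI b c I).Monic :=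
  monic_prod_of_monic _ _ fun i _ => it_monic b c i

theorem FI_natDegree (b c : ℤ) (I : Finset ℕ) (hI : ∀ i ∈ I, 1 ≤ i) :
    (FI b c I).natDegree = 2 * ∑ i ∈ I, 2 ^ (i - 1) := by
  rw [FI, natDegree_prod_of_monic _ _ fun i _ => it_monic b c i, Finset.mul_sum]
  refine Finset.sum_congr rfl fun i hi => ?_
  rw [it_natDegree, ← pow_succ']
  congr 1
  have := hI i hi
  omega

theorem FI_aeval (b c : ℤ) (I : Finset ℕ) (a : ℕ) :
    aeval (orb b c a) (FI b c I) = ∏ i ∈ I, orb b c (a + i) := by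
  rw [FI, map_prod]
  refine Finset.prod_congr rfl fun i _ => ?_
  rw [it_aeval, orb, orb, ← Function.iterate_add_apply, add_comm]

theorem FI_not_sq (b c : ℤ) (hs : Stable b c) (I : Finset ℕ) (hI : ∀ i ∈ I, 1 ≤ i)
    (hne : I.Nonempty) (P0 P1 : ℚ[X]) (hP1 : P1 ≠ 0) :
    P0 ^ 2 ≠ P1 ^ 2 * (FI b c I).map (Int.castRingHom ℚ) := by
  intro h
  have h1 : P1 ^ 2 ∣ P0 ^ 2 := ⟨_, h⟩
  rw [UniqueFactorizationMonoid.pow_dvd_pow_iff_dvd two_ne_zero] at h1
  obtain ⟨R, rfl⟩ := h1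
  have h2 : R ^ 2 = (FI b c I).map (Int.castRingHom ℚ) := by
    rw [mul_pow] at h
    exact mul_left_cancel₀ (pow_ne_zero 2 hP1) h
  obtain ⟨j, hj⟩ := hne
  have hirr : ∀ i ∈ I, Irreducible ((it b c i).map (Int.castRingHom ℚ)) := by
    intro i hi
    rw [it_map]
    exact hs i (hI i hi)
  have hp := (hirr j hj).prime
  rw [FI, Polynomial.map_prod, ← Finset.mul_prod_erase _ _ hj] at h2
  have h3 : (it b c j).map (Int.castRingHom ℚ) ∣ R := by
    apply hp.dvd_of_dvd_pow (n := 2)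
    exact ⟨_, h2⟩
  obtain ⟨R', rfl⟩ := h3
  have h4 : (it b c j).map (Int.castRingHom ℚ) * R' ^ 2
      = ∏ i ∈ I.erase j, (it b c i).map (Int.castRingHom ℚ) := by
    apply mul_left_cancel₀ hp.ne_zero
    rw [← h2]
    ring
  have h5 : (it b c j).map (Int.castRingHom ℚ)
      ∣ ∏ i ∈ I.erase j, (it b c i).map (Int.castRingHom ℚ) := ⟨_, h4.symm⟩
  rw [hp.dvd_finsetProd_iff] at h5
  obtain ⟨i, hi, hdvd⟩ := h5
  rw [Finset.mem_erase] at hi
  have h6 := (hirr j hj).associated_of_dvd (hirr i hi.2) hdvd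
  have h7 := natDegree_eq_of_degree_eq (degree_eq_degree_of_associated h6)
  have hinj : Function.Injective (Int.castRingHom ℚ) := (Int.castRingHom ℚ).injective_int
  rw [natDegree_map_eq_of_injective hinj, natDegree_map_eq_of_injective hinj, it_natDegree,
    it_natDegree] at h7
  exact hi.1 (Nat.pow_right_injective le_rfl h7).symm

theorem orb_injective (b c : ℤ) (hinf : (Set.range (orb b c)).Infinite) :
    Function.Injective (orb b c) := by
  have key : ∀ i j : ℕ, i < j → orb b c i ≠ orb b c j := by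
    intro i j hij heq
    apply hinf
    apply Set.Finite.subset (Finset.finite_toSet ((Finset.range j).image (orb b c)))
    rintro _ ⟨n, rfl⟩
    simp only [Finset.coe_image, Finset.coe_range, Set.mem_image, Set.mem_Iio]
    induction n using Nat.strong_induction_on with
    | _ n ih =>
      rcases Nat.lt_or_ge n j with h | h
      · exact ⟨n, h, rfl⟩
      · obtain ⟨m, hm, hm2⟩ := ih (n - (j - i)) (by omega)
        refine ⟨m, hm, hm2.trans ?_⟩
        have e1 : orb b c (n - (j - i)) = (F b c)^[n - j] (orb b c i) := by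
          rw [orb, orb, ← Function.iterate_add_apply]
          congr 2
          omega
        have e2 : orb b c n = (F b c)^[n - j] (orb b c j) := by
          rw [orb, orb, ← Function.iterate_add_apply]
          congr 2
          omega
        rw [e1, e2, heq]
  intro i j h
  rcases lt_trichotomy i j with h1 | h1 | h1
  · exact absurd h (key i j h1)
  · exact h1
  · exact absurd h.symm (key j i h1)

theorem eventually_ne_zero (b c : ℤ) (hinf : (Set.range (orb b c)).Infinite) (H : ℤ[X])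
    (hH : H ≠ 0) : ∀ᶠ a in atTop, aeval (orb b c a) H ≠ 0 := by
  have h1 := (orb_injective b c hinf).tendsto_cofinite
  rw [Nat.cofinite_eq_atTop] at h1
  have h2 : (H.rootSet ℚ).Finite := rootSet_finite H ℚ
  have h3 := h1.eventually h2.compl_mem_cofinite
  filter_upwards [h3] with a ha h0
  apply ha
  rw [mem_rootSet']
  refine ⟨?_, h0⟩
  intro h4
  apply hH
  have hinj : Function.Injective (algebraMap ℤ ℚ) := (algebraMap ℤ ℚ).injective_int
  exact (Polynomial.map_eq_zero_iff hinj).1 h4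

theorem orb_succ (b c : ℤ) (n : ℕ) : orb b c (n + 1) = orb b c n ^ 2 + b * orb b c n + c := by
  rw [orb, orb, Function.iterate_succ_apply', F]

/-- the integral orbit, `b = 2b'` -/
def zseq (b c b' : ℤ) : ℕ → ℤ
  | 0 => -b'
  | n + 1 => zseq b c b' n ^ 2 + b * zseq b c b' n + c

/-- the case `b` even -/
theorem main_even (b c : ℤ) (hb : Even b) (hs : Stable b c) (hinf : (Set.range (orb b c)).Infinite)
    (I : Finset ℕ) (hI : ∀ i ∈ I, 1 ≤ i) (hne : I.Nonempty) :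
    ∀ᶠ a in atTop, ¬ IsSquare (∏ i ∈ I, orb b c (a + i)) := by
  obtain ⟨b', hb'⟩ := hb
  -- the orbit is integral
  obtain ⟨z, hz0, hzs⟩ : ∃ z : ℕ → ℤ, z 0 = -b' ∧ ∀ n, z (n + 1) = (z n) ^ 2 + b * z n + c :=
    ⟨zseq b c b', rfl, fun n => rfl⟩
  have hz : ∀ n, orb b c n = ((z n : ℤ) : ℚ) := by
    intro n
    induction n with
    | zero =>
      rw [hz0, orb, Function.iterate_zero, id, hb']
      push_cast
      ring
    | succ n ih =>
      rw [hzs, orb_succ, ih]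
      push_cast
      ring
  have hzinj : Function.Injective z := by
    intro i j h
    apply orb_injective b c hinf
    rw [hz, hz, h]
  set d := ∑ i ∈ I, 2 ^ (i - 1) with hd
  have hd1 : 1 ≤ d := by
    obtain ⟨j, hj⟩ := hne
    have h1 : 2 ^ (j - 1) ≤ d := by
      rw [hd]
      exact Finset.single_le_sum (f := fun i => 2 ^ (i - 1)) (fun _ _ => Nat.zero_le _) hj
    exact (Nat.one_le_two_pow).trans h1
  have hdeg := FI_natDegree b c I hI
  obtain ⟨m, -, P0, P1, h1, h0, hHne, hHd⟩ := pade_int (FI b c I) d (FI_monic b c I) hdeg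
    (fun P0 P1 hP1 => FI_not_sq b c hs I hI hne P0 P1 hP1) 1 le_rfl
  obtain ⟨C, hC, hbound⟩ := rungeII (F := FI b c I) (P0 := P0) (P1 := P1) (d := d) (m := m)
    ⟨hdeg, h1, h0, hHd⟩ hd1
  have hz1 := hzinj.tendsto_cofinite
  rw [Nat.cofinite_eq_atTop] at hz1
  have hfin : (Set.Icc (-⌈C⌉) ⌈C⌉ : Set ℤ).Finite := Set.finite_Icc _ _
  filter_upwards [hz1.eventually hfin.compl_mem_cofinite, eventually_ne_zero b c hinf _ hHne]
    with a ha ha2 hsq
  obtain ⟨Y, hY⟩ := hsq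
  have e1 : ((z a : ℤ) : ℚ) / ((1 : ℤ) : ℚ) = orb b c a := by rw [hz]; simp
  have h3 := hbound (z a) 1 Y le_rfl (by rw [e1, FI_aeval, hY]; ring) (by rw [e1]; exact ha2)
  rw [Int.cast_one, div_one, one_pow, mul_one] at h3
  apply ha
  have h4 : |(z a : ℚ)| ≤ C ∨ z a = 0 := by
    by_cases h0 : z a = 0
    · exact Or.inr h0
    · left
      have h5 : (1 : ℚ) ≤ |(z a : ℚ)| := by exact_mod_cast Int.one_le_abs h0
      calc |(z a : ℚ)| = |(z a : ℚ)| ^ 1 := (pow_one _).symm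
        _ ≤ |(z a : ℚ)| ^ (m + 1) := pow_le_pow_right₀ h5 (by omega)
        _ ≤ C := h3
  have hCc : C ≤ ((⌈C⌉ : ℤ) : ℚ) := Int.le_ceil C
  have h5 : |(z a : ℚ)| ≤ ((⌈C⌉ : ℤ) : ℚ) := by
    rcases h4 with h | h
    · exact h.trans hCc
    · rw [h, Int.cast_zero, abs_zero]
      linarith
  rw [Set.mem_Icc, ← abs_le]
  exact_mod_cast h5

/-- numerators of the shifted orbit for `b` odd -/
def vseq (k : ℤ) : ℕ → ℤ
  | 0 => 0
  | n + 1 => vseq k n ^ 2 + k * 2 ^ (2 ^ (n + 1) - 2)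

theorem two_pow_split (n : ℕ) : 2 ^ (n + 1) = 2 ^ (n + 1) - 2 + 2 := by
  have : 2 ^ (n + 1) = 2 ^ n * 2 := pow_succ _ _
  have := Nat.one_le_two_pow (n := n)
  omega

theorem orb_eq_vseq (b c : ℤ) (n : ℕ) :
    orb b c n + b / 2 = (vseq (4 * c - b ^ 2 + 2 * b) n : ℚ) / 2 ^ (2 ^ n) := by
  induction n with
  | zero =>
    rw [orb, vseq]
    simp
    ring
  | succ n ih =>
    have h1 : orb b c (n + 1) + b / 2 = (orb b c n + b / 2) ^ 2 + (4 * c - b ^ 2 + 2 * b) / 4 := by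
      rw [orb_succ]
      ring
    rw [h1, ih, vseq]
    have h2 : ((2 : ℚ) ^ (2 ^ n)) ^ 2 = 2 ^ (2 ^ (n + 1)) := by rw [← pow_mul, pow_succ 2 n]
    have h3 : (2 : ℚ) ^ (2 ^ (n + 1)) = 2 ^ (2 ^ (n + 1) - 2) * 4 := by
      conv_lhs => rw [two_pow_split n, pow_add]
      norm_num
    rw [div_pow, h2]
    push_cast
    rw [h3]
    have h4 : (2 : ℚ) ^ (2 ^ (n + 1) - 2) ≠ 0 := by positivity
    field_simp

theorem vseq_odd (k : ℤ) (hk : Odd k) (n : ℕ) (hn : 1 ≤ n) : Odd (vseq k n) := by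
  induction n with
  | zero => omega
  | succ n ih =>
    rw [vseq]
    rcases Nat.eq_zero_or_pos n with h | h
    · subst h
      simpa [vseq] using hk
    · have h1 : 2 ^ (n + 1) - 2 ≠ 0 := by
        have : 2 ^ 1 ≤ 2 ^ n := Nat.pow_le_pow_right (by norm_num) h
        have : 2 ^ (n + 1) = 2 ^ n * 2 := pow_succ _ _
        omega
      exact (ih h).pow.add_even ((even_two.pow_of_ne_zero h1).mul_left k)

theorem vseq_gap (k : ℤ) (hk : Odd k) :
    ∀ᶠ n in atTop, 1 / (8 * qq n) ≤ |(vseq k n : ℝ) / qq (n + 1) - 1| := by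
  have h1 : ∀ᶠ n in atTop, (8 * (|(k : ℝ)| + 1) ^ 2) ≤ qq n := qq_tendsto.eventually_ge_atTop _
  filter_upwards [h1, eventually_ge_atTop 1] with n hn hn1
  obtain ⟨j, rfl⟩ : ∃ j, n = j + 1 := ⟨n - 1, by omega⟩
  set Q : ℤ := 2 ^ (2 ^ (j + 1)) with hQ
  have hQr : (Q : ℝ) = qq (j + 1) := by rw [hQ, qq]; push_cast; rfl
  have hQ4 : (Q : ℝ) = 2 ^ (2 ^ (j + 1) - 2) * 4 := by
    rw [hQ]
    push_cast
    conv_lhs => rw [two_pow_split j, pow_add]
    norm_num
  have h2 : 8 * (|k| + 1) ^ 2 ≤ Q := by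
    rw [← hQr] at hn
    exact_mod_cast hn
  have h3 := int_gap k hk (vseq k j) Q h2
  have hQ0 : (0 : ℝ) < Q := by rw [hQr]; exact qq_pos _
  have h4 : (vseq k (j + 1) : ℝ) / qq (j + 1 + 1) - 1
      = ((4 * vseq k j ^ 2 + k * Q - 4 * Q ^ 2 : ℤ) : ℝ) / (4 * (Q : ℝ) ^ 2) := by
    rw [qq_succ, ← hQr, vseq]
    push_cast
    rw [eq_div_iff (by positivity)]
    have h5 : (2 : ℝ) ^ (2 ^ (j + 1) - 2) = Q / 4 := by rw [hQ4]; ring
    rw [h5]
    field_simp
  rw [h4, ← hQr, abs_div, abs_of_pos (by positivity : (0 : ℝ) < 4 * (Q : ℝ) ^ 2),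
    div_le_div_iff₀ (by positivity) (by positivity)]
  have h6 : (Q : ℝ) ≤ 2 * |((4 * vseq k j ^ 2 + k * Q - 4 * Q ^ 2 : ℤ) : ℝ)| := by
    exact_mod_cast h3
  nlinarith

theorem vseq_rec (k : ℤ) (n : ℕ) :
    (vseq k (n + 1) : ℝ) / qq (n + 1 + 1)
      = ((vseq k n : ℝ) / qq (n + 1)) ^ 2 + ((k : ℝ) / 4) / qq n ^ 2 := by
  have hq := qq_pos (n + 1)
  rw [← qq_succ, qq_succ (n + 1), vseq]
  have h3 : qq (n + 1) = 2 ^ (2 ^ (n + 1) - 2) * 4 := by
    rw [qq]
    conv_lhs => rw [two_pow_split n, pow_add]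
    norm_num
  push_cast
  have h5 : (2 : ℝ) ^ (2 ^ (n + 1) - 2) = qq (n + 1) / 4 := by rw [h3]; ring
  rw [h5]
  field_simp

/-- the case `b` odd -/
theorem main_odd (b c : ℤ) (hb : Odd b) (hs : Stable b c) (hinf : (Set.range (orb b c)).Infinite)
    (I : Finset ℕ) (hI : ∀ i ∈ I, 1 ≤ i) (hne : I.Nonempty) :
    ∀ᶠ a in atTop, ¬ IsSquare (∏ i ∈ I, orb b c (a + i)) := by
  set k : ℤ := 4 * c - b ^ 2 + 2 * b with hk
  have hkodd : Odd k := by
    rw [hk]
    obtain ⟨r, rfl⟩ := hb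
    exact ⟨2 * c - 2 * r ^ 2, by ring⟩
  set t : ℕ → ℝ := fun n => (vseq k n : ℝ) / qq (n + 1) with ht
  set d := ∑ i ∈ I, 2 ^ (i - 1) with hd
  have hd1 : 1 ≤ d := by
    obtain ⟨j, hj⟩ := hne
    have h1 : 2 ^ (j - 1) ≤ d := by
      rw [hd]
      exact Finset.single_le_sum (f := fun i => 2 ^ (i - 1)) (fun _ _ => Nat.zero_le _) hj
    exact (Nat.one_le_two_pow).trans h1
  have hdeg := FI_natDegree b c I hI
  -- the shifted orbit
  have hxi : ∀ n, ((orb b c n : ℚ) : ℝ) + (b : ℝ) / 2 = t n * qq n := by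
    intro n
    have h1 := congrArg (fun x : ℚ => (x : ℝ)) (orb_eq_vseq b c n)
    simp only [Rat.cast_add, Rat.cast_div, Rat.cast_intCast, Rat.cast_ofNat, Rat.cast_pow] at h1
    rw [h1, ht]
    simp only
    rw [qq_succ, ← hk]
    have := qq_pos n
    have h2 : (2 : ℝ) ^ (2 ^ n) = qq n := rfl
    rw [h2]
    field_simp
  -- the orbit as a fraction
  have hfrac : ∀ n, 1 ≤ n → ∃ w : ℤ, Odd w ∧ orb b c n = (w : ℚ) / ((2 ^ (2 ^ n) : ℤ) : ℚ) := by
    intro n hn
    refine ⟨vseq k n - b * 2 ^ (2 ^ n - 1), ?_, ?_⟩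
    · have h1 : 2 ^ n - 1 ≠ 0 := by
        have : 2 ^ 1 ≤ 2 ^ n := Nat.pow_le_pow_right (by norm_num) hn
        omega
      exact (vseq_odd k hkodd n hn).sub_even ((even_two.pow_of_ne_zero h1).mul_left b)
    · have h1 := orb_eq_vseq b c n
      rw [← hk] at h1
      have h2 : orb b c n = (vseq k n : ℚ) / 2 ^ (2 ^ n) - b / 2 := by rw [← h1]; ring
      have h3 : (2 : ℚ) ^ (2 ^ n) = 2 ^ (2 ^ n - 1) * 2 := by
        rw [← pow_succ]
        congr 1
        have := Nat.one_le_two_pow (n := n)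
        omega
      rw [h2]
      push_cast
      rw [h3]
      have h4 : (2 : ℚ) ^ (2 ^ n - 1) ≠ 0 := by positivity
      field_simp
  rcases escape t ((k : ℝ) / 4) (fun n => vseq_rec k n) (vseq_gap k hkodd) with
    ⟨V, hV1, hV⟩ | ⟨W, hW0, hW1, hW⟩
  · -- escape faster
    obtain ⟨j0, hj0⟩ := pow_unbounded_of_one_lt ((2 : ℝ) ^ d) hV1
    obtain ⟨m, hm, P0, P1, h1, h0, hHne, hHd⟩ := pade_int (FI b c I) d (FI_monic b c I) hdeg
      (fun P0 P1 hP1 => FI_not_sq b c hs I hI hne P0 P1 hP1) (d + j0 + 1) (by omega)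
    obtain ⟨C, hC, hbound⟩ := rungeII (F := FI b c I) (P0 := P0) (P1 := P1) (d := d) (m := m)
      ⟨hdeg, h1, h0, hHd⟩ hd1
    have hVm : (2 : ℝ) ^ d ≤ V ^ (m + 1) :=
      hj0.le.trans (pow_le_pow_right₀ hV1.le (by omega))
    filter_upwards [hV, eventually_ne_zero b c hinf _ hHne, eventually_ge_atTop 1,
      qq_tendsto.eventually_ge_atTop |(b : ℝ)|,
      qq_tendsto.eventually_gt_atTop (2 ^ (m + 1) * (C : ℝ))] with a hVa hHa ha1 hba hCa hsq
    obtain ⟨Y, hY⟩ := hsq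
    obtain ⟨w, hw, hwX⟩ := hfrac a ha1
    have h3 := hbound w (2 ^ (2 ^ a)) Y (one_le_pow₀ (by norm_num))
      (by rw [← hwX, FI_aeval, hY]; ring) (by rw [← hwX]; exact hHa)
    rw [← hwX] at h3
    have h4 : |((orb b c a : ℚ) : ℝ)| ^ (m + 1) ≤ (C : ℝ) * qq a ^ (m + d) := by
      have h5 : (((|orb b c a| ^ (m + 1) : ℚ)) : ℝ) ≤
          ((C * (((2 ^ (2 ^ a) : ℤ) : ℚ)) ^ (m + d) : ℚ) : ℝ) := by exact_mod_cast h3
      rw [qq]
      push_cast at h5
      exact h5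
    have hq := qq_pos a
    have hVT : 1 ≤ V ^ (2 ^ a) := one_le_pow₀ hV1.le
    have h6 : 1 / 2 * (V ^ (2 ^ a) * qq a) ≤ |((orb b c a : ℚ) : ℝ)| := by
      have h7 := hxi a
      have h8 : V ^ (2 ^ a) * qq a ≤ t a * qq a := mul_le_mul_of_nonneg_right hVa hq.le
      have h9 : ((orb b c a : ℚ) : ℝ) = t a * qq a - (b : ℝ) / 2 := by linarith
      have h10 : (b : ℝ) ≤ |(b : ℝ)| := le_abs_self _
      have h11 : qq a ≤ V ^ (2 ^ a) * qq a := by nlinarith
      refine le_trans ?_ (le_abs_self _)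
      rw [h9]
      linarith
    have h7 : (1 / 2 * (V ^ (2 ^ a) * qq a)) ^ (m + 1) ≤ (C : ℝ) * qq a ^ (m + d) :=
      (pow_le_pow_left₀ (by positivity) h6 _).trans h4
    have h8 : (1 / 2 * (V ^ (2 ^ a) * qq a)) ^ (m + 1)
        = (1 / 2) ^ (m + 1) * ((V ^ (m + 1)) ^ (2 ^ a) * qq a ^ (m + 1)) := by
      rw [mul_pow, mul_pow, ← pow_mul, ← pow_mul, mul_comm (2 ^ a) (m + 1)]
    have h9 : qq a ^ d ≤ (V ^ (m + 1)) ^ (2 ^ a) := by
      calc qq a ^ d = ((2 : ℝ) ^ d) ^ (2 ^ a) := by rw [qq, ← pow_mul, ← pow_mul, mul_comm]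
        _ ≤ _ := pow_le_pow_left₀ (by positivity) hVm _
    have h10 : (1 / 2) ^ (m + 1) * (qq a ^ d * qq a ^ (m + 1)) ≤ (C : ℝ) * qq a ^ (m + d) := by
      refine le_trans ?_ h7
      rw [h8]
      refine mul_le_mul_of_nonneg_left ?_ (by positivity)
      exact mul_le_mul_of_nonneg_right h9 (by positivity)
    have h11 : qq a ^ d * qq a ^ (m + 1) = qq a ^ (m + d) * qq a := by
      rw [← pow_add, ← pow_succ]
      congr 1
      omega
    have h12 : qq a ^ (m + d) * ((1 / 2) ^ (m + 1) * qq a) ≤ qq a ^ (m + d) * C := by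
      rw [h11] at h10
      linarith
    have h13 : (1 / 2) ^ (m + 1) * qq a ≤ (C : ℝ) := le_of_mul_le_mul_left h12 (by positivity)
    have h14 : qq a ≤ 2 ^ (m + 1) * (C : ℝ) := by
      have h15 : (2 : ℝ) ^ (m + 1) * ((1 / 2) ^ (m + 1) * qq a) ≤ 2 ^ (m + 1) * C :=
        mul_le_mul_of_nonneg_left h13 (by positivity)
      have h16 : (2 : ℝ) ^ (m + 1) * ((1 / 2) ^ (m + 1) * qq a) = qq a := by
        rw [← mul_assoc, ← mul_pow]
        norm_num
      rwa [h16] at h15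
    linarith
  · -- escape slower
    set W' : ℝ := max W (1 / 2) with hW'
    have hW'1 : W' < 1 := max_lt hW1 (by norm_num)
    have hW'h : 1 / 2 ≤ W' := le_max_right _ _
    have hW'0 : 0 < W' := by linarith
    obtain ⟨j0, hj0⟩ := exists_pow_lt_of_lt_one (by positivity : (0 : ℝ) < (1 / 2) ^ d) hW'1
    obtain ⟨m, hm, P0, P1, h1, h0, hHne, hHd⟩ := pade_int (FI b c I) d (FI_monic b c I) hdeg
      (fun P0 P1 hP1 => FI_not_sq b c hs I hI hne P0 P1 hP1) (d + j0 + 1) (by omega)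
    obtain ⟨C, hC, k0, hbound⟩ := rungeI (F := FI b c I) (P0 := P0) (P1 := P1) (d := d) (m := m)
      ⟨hdeg, h1, h0, hHd⟩ hd1
    have hWm : W' ^ (m + d) ≤ (1 / 2) ^ d :=
      (pow_le_pow_of_le_one hW'0.le hW'1.le (by omega)).trans hj0.le
    filter_upwards [hW, eventually_ne_zero b c hinf _ hHne, eventually_ge_atTop 1,
      eventually_ge_atTop k0,
      qq_tendsto.eventually_gt_atTop ((C : ℝ) * (1 + |(b : ℝ)|) ^ (m + d))]
      with a hWa hHa ha1 hk0a hCa hsq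
    obtain ⟨Y, hY⟩ := hsq
    obtain ⟨w, hw, hwX⟩ := hfrac a ha1
    have hk0' : k0 ≤ 2 ^ a := hk0a.trans (Nat.lt_two_pow_self).le
    have h3 := hbound w (2 ^ a) Y hk0' hw
      (by rw [← hwX, FI_aeval, hY]; ring) (by rw [← hwX]; exact hHa)
    rw [← hwX] at h3
    have h4 : qq a ^ (m + 1) ≤ (C : ℝ) * (max 1 |((orb b c a : ℚ) : ℝ)|) ^ (m + d) := by
      have h5 : (((((2 : ℚ) ^ (2 ^ a)) ^ (m + 1) : ℚ)) : ℝ) ≤
          ((C * (max 1 |orb b c a|) ^ (m + d) : ℚ) : ℝ) := by exact_mod_cast h3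
      rw [qq]
      push_cast at h5
      exact h5
    have hq := qq_pos a
    have hWW : 1 ≤ W' ^ (2 ^ a) * qq a := by
      rw [qq, ← mul_pow]
      apply one_le_pow₀
      linarith
    have h6 : max 1 |((orb b c a : ℚ) : ℝ)| ≤ (1 + |(b : ℝ)|) * (W' ^ (2 ^ a) * qq a) := by
      have hb0 : 0 ≤ |(b : ℝ)| := abs_nonneg _
      refine max_le (by nlinarith) ?_
      have h7 := hxi a
      have h9 : ((orb b c a : ℚ) : ℝ) = t a * qq a - (b : ℝ) / 2 := by linarith
      have h10 : |t a * qq a - (b : ℝ) / 2| ≤ |t a * qq a| + |(b : ℝ) / 2| := abs_sub _ _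
      have h11 : |t a * qq a| ≤ W' ^ (2 ^ a) * qq a := by
        rw [abs_mul, abs_of_pos hq]
        refine mul_le_mul_of_nonneg_right ?_ hq.le
        exact hWa.trans (pow_le_pow_left₀ hW0.le (le_max_left _ _) _)
      have h12 : |(b : ℝ) / 2| = |(b : ℝ)| / 2 := by rw [abs_div]; norm_num
      rw [h9]
      rw [h12] at h10
      nlinarith
    have h7 : qq a ^ (m + 1) ≤ (C : ℝ) * ((1 + |(b : ℝ)|) * (W' ^ (2 ^ a) * qq a)) ^ (m + d) := by
      refine h4.trans ?_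
      have hC' : (0 : ℝ) ≤ C := by exact_mod_cast hC.le
      exact mul_le_mul_of_nonneg_left (pow_le_pow_left₀ (by positivity) h6 _) hC'
    have h8 : ((1 + |(b : ℝ)|) * (W' ^ (2 ^ a) * qq a)) ^ (m + d)
        = (1 + |(b : ℝ)|) ^ (m + d) * ((W' ^ (m + d)) ^ (2 ^ a) * qq a ^ (m + d)) := by
      rw [mul_pow, mul_pow, ← pow_mul, ← pow_mul, mul_comm (2 ^ a) (m + d)]
    have h9 : (W' ^ (m + d)) ^ (2 ^ a) * qq a ^ (m + d) ≤ qq a ^ m := by
      have h10 : (W' ^ (m + d)) ^ (2 ^ a) ≤ ((1 / 2) ^ d) ^ (2 ^ a) :=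
        pow_le_pow_left₀ (by positivity) hWm _
      calc (W' ^ (m + d)) ^ (2 ^ a) * qq a ^ (m + d)
          ≤ ((1 / 2) ^ d) ^ (2 ^ a) * qq a ^ (m + d) :=
            mul_le_mul_of_nonneg_right h10 (by positivity)
        _ = qq a ^ m := by
            have h11 : ((1 / 2 : ℝ) ^ d) ^ (2 ^ a) * qq a ^ d = 1 := by
              rw [qq, ← pow_mul, ← pow_mul, mul_comm (2 ^ a) d, ← mul_pow]
              norm_num
            rw [pow_add]
            calc ((1 / 2 : ℝ) ^ d) ^ (2 ^ a) * (qq a ^ m * qq a ^ d)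
                = qq a ^ m * (((1 / 2 : ℝ) ^ d) ^ (2 ^ a) * qq a ^ d) := by ring
              _ = qq a ^ m := by rw [h11, mul_one]
    have h10 : qq a ^ m * qq a ≤ qq a ^ m * ((C : ℝ) * (1 + |(b : ℝ)|) ^ (m + d)) := by
      rw [← pow_succ]
      refine h7.trans ?_
      rw [h8]
      have hC' : (0 : ℝ) ≤ C := by exact_mod_cast hC.le
      have := mul_le_mul_of_nonneg_left h9
        (by positivity : (0 : ℝ) ≤ (C : ℝ) * (1 + |(b : ℝ)|) ^ (m + d))
      linarith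
    have h11 := le_of_mul_le_mul_left h10 (by positivity)
    linarith

/-- Module DIO. -/
theorem dio (b c : ℤ) (hs : Stable b c) (hinf : (Set.range (orb b c)).Infinite) (N : ℕ) :
    ∃ a : ℕ, 1 ≤ a ∧ ∀ I : Finset ℕ, I ⊆ Finset.Icc 1 N → I.Nonempty →
      ¬ IsSquare (∏ i ∈ I, orb b c (a + i)) := by
  have h1 : ∀ I ∈ (Finset.Icc 1 N).powerset, ∀ᶠ a in atTop, I.Nonempty →
      ¬ IsSquare (∏ i ∈ I, orb b c (a + i)) := by
    intro I hI
    rw [Finset.mem_powerset] at hI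
    by_cases hne : I.Nonempty
    · have hI1 : ∀ i ∈ I, 1 ≤ i := fun i hi => (Finset.mem_Icc.1 (hI hi)).1
      rcases Int.even_or_odd b with hb | hb
      · filter_upwards [main_even b c hb hs hinf I hI1 hne] with a ha _ using ha
      · filter_upwards [main_odd b c hb hs hinf I hI1 hne] with a ha _ using ha
    · exact Eventually.of_forall fun a h => absurd h hne
  rw [← eventually_all_finset] at h1
  obtain ⟨a, ha, ha1⟩ := (h1.and (eventually_ge_atTop 1)).exists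
  exact ⟨a, ha1, fun I hI hne => ha I (Finset.mem_powerset.2 hI) hne⟩

end Pool.Agent.H354R2.Dio
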