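import Mathlib

/-!
Module DIO (TEAM-J), part 1: polynomial square roots and Pade approximants of `√F`.
-/

set_option autoImplicit false
open Polynomial

namespace Pool.Agent.H354R2.Dio

/-- polynomial square root, stepwise -/
theorem exists_sqrt_aux (F : ℚ[X]) (e : ℕ) (hF : F.Monic) (hd : F.natDegree = 2 * e) :
    ∀ k : ℕ, k ≤ e → ∃ S : ℚ[X], S.Monic ∧ S.natDegree = e ∧
      ∀ j, 2 * e - k ≤ j → (F - S ^ 2).coeff j = 0 := by
  intro k
  induction k with
  | zero =>
    intro _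
    refine ⟨X ^ e, monic_X_pow e, natDegree_X_pow e, ?_⟩
    intro j hj
    rw [← pow_mul, coeff_sub, coeff_X_pow]
    by_cases h : j = e * 2
    · subst h
      have : F.coeff (e * 2) = 1 := by
        have := hF.coeff_natDegree
        rwa [hd, mul_comm] at this
      simp [this]
    · rw [if_neg h, coeff_eq_zero_of_natDegree_lt (by omega)]
      simp
  | succ k ih =>
    intro hk
    obtain ⟨S, hSm, hSd, hS⟩ := ih (by omega)
    set c : ℚ := (F - S ^ 2).coeff (2 * e - k - 1) with hc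
    refine ⟨S + C (c / 2) * X ^ (e - k - 1), ?_, ?_, ?_⟩
    · refine hSm.add_of_left ?_
      rw [degree_eq_natDegree hSm.ne_zero, hSd]
      exact lt_of_le_of_lt (degree_C_mul_X_pow_le _ _) (by exact_mod_cast (by omega : e - k - 1 < e))
    · rw [natDegree_add_eq_left_of_natDegree_lt, hSd]
      rw [hSd]
      exact lt_of_le_of_lt (natDegree_C_mul_X_pow_le _ _) (by omega)
    · intro j hj
      have hexp : F - (S + C (c / 2) * X ^ (e - k - 1)) ^ 2
          = (F - S ^ 2) - C c * (S * X ^ (e - k - 1)) - C ((c / 2) ^ 2) * X ^ (2 * (e - k - 1)) := by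
        have h2 : (C c : ℚ[X]) = 2 * C (c / 2) := by
          rw [show (2 : ℚ[X]) = C 2 from rfl, ← C_mul]
          congr 1
          ring
        rw [h2, C_pow]
        ring
      rw [hexp, coeff_sub, coeff_sub, coeff_C_mul, coeff_C_mul, coeff_X_pow]
      have hj2 : j ≠ 2 * (e - k - 1) := by omega
      rw [if_neg hj2]
      rcases Nat.lt_or_ge j (2 * e - k) with h | h
      · have hjj : j = 2 * e - k - 1 := by omega
        have : (S * X ^ (e - k - 1)).coeff j = 1 := by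
          rw [coeff_mul_X_pow', if_pos (by omega)]
          have : j - (e - k - 1) = e := by omega
          rw [this]
          have := hSm.coeff_natDegree
          rwa [hSd] at this
        rw [this, hjj, ← hc]
        ring
      · rw [hS j h]
        have : (S * X ^ (e - k - 1)).coeff j = 0 := by
          rw [coeff_mul_X_pow']
          split_ifs with h3
          · apply coeff_eq_zero_of_natDegree_lt
            omega
          · rfl
        rw [this]
        ring

theorem exists_sqrt (F : ℚ[X]) (e : ℕ) (hF : F.Monic) (hd : F.natDegree = 2 * e) :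
    ∃ S : ℚ[X], S.Monic ∧ S.natDegree = e ∧ ∀ j, e ≤ j → (F - S ^ 2).coeff j = 0 := by
  obtain ⟨S, h1, h2, h3⟩ := exists_sqrt_aux F e hF hd e le_rfl
  exact ⟨S, h1, h2, fun j hj => h3 j (by omega)⟩

/-- linear algebra: a nonzero polynomial of degree `≤ n` such that `n` prescribed coefficients of
`P * S` vanish -/
theorem exists_kernel (S : ℚ[X]) (n r : ℕ) :
    ∃ P : ℚ[X], P ≠ 0 ∧ P.natDegree ≤ n ∧ ∀ i, i < n → (P * S).coeff (r + i) = 0 := by
  let φ : (Polynomial.degreeLT ℚ (n + 1)) →ₗ[ℚ] (Fin n → ℚ) :=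
    { toFun := fun P i => ((P : ℚ[X]) * S).coeff (r + i)
      map_add' := by
        intro P Q
        ext i
        simp [add_mul]
      map_smul' := by
        intro a P
        ext i
        simp }
  have hfin : Module.finrank ℚ (Polynomial.degreeLT ℚ (n + 1)) = n + 1 := by
    rw [LinearEquiv.finrank_eq (Polynomial.degreeLTEquiv ℚ (n + 1))]
    simp
  have : FiniteDimensional ℚ (Polynomial.degreeLT ℚ (n + 1)) :=
    LinearEquiv.finiteDimensional (Polynomial.degreeLTEquiv ℚ (n + 1)).symm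
  have hker : LinearMap.ker φ ≠ ⊥ := by
    apply LinearMap.ker_ne_bot_of_finrank_lt
    rw [hfin]
    simp
  obtain ⟨P, hP, hP0⟩ := (Submodule.ne_bot_iff _).1 hker
  refine ⟨(P : ℚ[X]), ?_, ?_, ?_⟩
  · intro h
    exact hP0 (Subtype.ext h)
  · have := P.2
    rw [Polynomial.mem_degreeLT] at this
    have h2 : (P : ℚ[X]).degree < ((n + 1 : ℕ) : WithBot ℕ) := this
    by_cases h0 : (P : ℚ[X]) = 0
    · rw [h0]; simp
    · rw [degree_eq_natDegree h0] at h2
      have : (P : ℚ[X]).natDegree < n + 1 := by exact_mod_cast h2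
      omega
  · intro i hi
    have := congrFun (LinearMap.mem_ker.1 hP) ⟨i, hi⟩
    exact this

/-- Pade approximants of `√F`. -/
theorem pade (F : ℚ[X]) (d : ℕ) (hF : F.Monic) (hd : F.natDegree = 2 * d)
    (hns : ∀ P0 P1 : ℚ[X], P1 ≠ 0 → P0 ^ 2 ≠ P1 ^ 2 * F) (n : ℕ) (hn : 1 ≤ n) :
    ∃ m, n + 1 ≤ m + d ∧ ∃ P0 P1 : ℚ[X], P1 ≠ 0 ∧ P1.natDegree = m ∧ P0.natDegree = m + d ∧
      (P0 ^ 2 - P1 ^ 2 * F).natDegree + 1 ≤ d := by
  have hGm : (X ^ (4 * n) * F).Monic := (monic_X_pow _).mul hF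
  have hGd : (X ^ (4 * n) * F).natDegree = 2 * (2 * n + d) := by
    rw [(monic_X_pow _).natDegree_mul hF, natDegree_X_pow, hd]
    ring
  obtain ⟨S, hSm, hSd, hS⟩ := exists_sqrt _ _ hGm hGd
  obtain ⟨P1, hP1, hP1d, hP1c⟩ := exists_kernel S n n
  set m := P1.natDegree with hm
  set T := (P1 * S) %ₘ (X ^ (2 * n)) with hT
  set P0 := (P1 * S) /ₘ (X ^ (2 * n)) with hP0
  set R := X ^ (4 * n) * F - S ^ 2 with hR
  have hdiv : T + X ^ (2 * n) * P0 = P1 * S := modByMonic_add_div _ _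
  have hTdeg : T.natDegree ≤ n - 1 := by
    rw [natDegree_le_iff_coeff_eq_zero]
    intro j hj
    have hTlt : T.degree < ((2 * n : ℕ) : WithBot ℕ) := by
      have := degree_modByMonic_lt (P1 * S) (monic_X_pow (R := ℚ) (2 * n))
      rwa [degree_X_pow] at this
    rcases Nat.lt_or_ge j (2 * n) with h | h
    · have h1 := congrArg (fun P => coeff P j) hdiv
      simp only [coeff_add] at h1
      rw [coeff_X_pow_mul', if_neg (by omega), add_zero] at h1
      rw [h1]
      have := hP1c (j - n) (by omega)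
      rwa [show n + (j - n) = j by omega] at this
    · exact coeff_eq_zero_of_degree_lt (lt_of_lt_of_le hTlt (by exact_mod_cast h))
  have hRdeg : R.natDegree ≤ 2 * n + d - 1 := by
    rw [natDegree_le_iff_coeff_eq_zero]
    intro j hj
    exact hS j (by omega)
  have hP1S : (P1 * S).natDegree = m + (2 * n + d) := by
    rw [natDegree_mul hP1 hSm.ne_zero, hSd]
  have hXP0 : X ^ (2 * n) * P0 = P1 * S - T := by rw [← hdiv]; ring
  have hXP0d : (X ^ (2 * n) * P0).natDegree = m + (2 * n + d) := by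
    rw [hXP0, natDegree_sub_eq_left_of_natDegree_lt, hP1S]
    rw [hP1S]
    omega
  have hP0ne : P0 ≠ 0 := by
    intro h
    rw [h, mul_zero, natDegree_zero] at hXP0d
    omega
  have hP0d : P0.natDegree = m + d := by
    rw [natDegree_mul (pow_ne_zero _ X_ne_zero) hP0ne, natDegree_X_pow] at hXP0d
    omega
  set H := P0 ^ 2 - P1 ^ 2 * F with hH
  have hHne : H ≠ 0 := by
    intro h
    exact hns P0 P1 hP1 (sub_eq_zero.1 h)
  have hXH : X ^ (4 * n) * H = T ^ 2 - 2 * (P1 * S * T) - P1 ^ 2 * R := by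
    have h1 : X ^ (4 * n) * H = (X ^ (2 * n) * P0) ^ 2 - P1 ^ 2 * (X ^ (4 * n) * F) := by
      rw [hH]; ring
    have h2 : X ^ (4 * n) * F = S ^ 2 + R := by rw [hR]; ring
    rw [h1, h2, hXP0]
    ring
  have hXHd : (X ^ (4 * n) * H).natDegree = 4 * n + H.natDegree := by
    rw [natDegree_mul (pow_ne_zero _ X_ne_zero) hHne, natDegree_X_pow]
  have hb1 : (T ^ 2).natDegree ≤ 2 * (n - 1) :=
    (natDegree_pow_le).trans (Nat.mul_le_mul_left _ hTdeg)
  have hb2 : (2 * (P1 * S * T)).natDegree ≤ m + (2 * n + d) + (n - 1) := by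
    have h3 : (2 * (P1 * S * T)) = C (2 : ℚ) * (P1 * S * T) := rfl
    rw [h3]
    refine (natDegree_C_mul_le _ _).trans ?_
    refine (natDegree_mul_le).trans ?_
    rw [hP1S]
    omega
  have hb3 : (P1 ^ 2 * R).natDegree ≤ 2 * m + (2 * n + d - 1) := by
    refine (natDegree_mul_le).trans ?_
    have : (P1 ^ 2).natDegree ≤ 2 * m := natDegree_pow_le
    omega
  have hb : (X ^ (4 * n) * H).natDegree ≤
      max (max (2 * (n - 1)) (m + (2 * n + d) + (n - 1))) (2 * m + (2 * n + d - 1)) := by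
    rw [hXH]
    refine (natDegree_sub_le _ _).trans (max_le_max ?_ hb3)
    exact (natDegree_sub_le _ _).trans (max_le_max hb1 hb2)
  rw [hXHd] at hb
  have hfin : H.natDegree + n + 1 ≤ m + d := by
    rcases le_max_iff.1 hb with h | h
    · rcases le_max_iff.1 h with h | h <;> omega
    · omega
  refine ⟨m, by omega, P0, P1, hP1, rfl, hP0d, ?_⟩
  change H.natDegree + 1 ≤ d
  omega

/-- Clearing denominators. -/
theorem exists_int (P : ℚ[X]) : ∃ (D : ℤ) (Q : ℤ[X]), D ≠ 0 ∧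
    Q.map (Int.castRingHom ℚ) = C (D : ℚ) * P := by
  obtain ⟨b, hb0, hb⟩ := IsLocalization.integerNormalization_spec (nonZeroDivisors ℤ) P
  refine ⟨b, IsLocalization.integerNormalization (nonZeroDivisors ℤ) P,
    nonZeroDivisors.ne_zero hb0, ?_⟩
  have h1 : (algebraMap ℤ ℚ) = Int.castRingHom ℚ := rfl
  rw [h1] at hb
  rw [hb, ← smul_eq_C_mul]
  ext i
  simp

/-- Pade approximants with integer coefficients. -/
theorem pade_int (F : ℤ[X]) (d : ℕ) (hF : F.Monic) (hd : F.natDegree = 2 * d)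
    (hns : ∀ P0 P1 : ℚ[X], P1 ≠ 0 → P0 ^ 2 ≠ P1 ^ 2 * F.map (Int.castRingHom ℚ))
    (n : ℕ) (hn : 1 ≤ n) :
    ∃ m, n + 1 ≤ m + d ∧ ∃ P0 P1 : ℤ[X], P1.natDegree = m ∧ P0.natDegree = m + d ∧
      (P0 ^ 2 - P1 ^ 2 * F) ≠ 0 ∧ (P0 ^ 2 - P1 ^ 2 * F).natDegree + 1 ≤ d := by
  have hinj : Function.Injective (Int.castRingHom ℚ) := (Int.castRingHom ℚ).injective_int
  obtain ⟨m, hm, P0, P1, h1, h2, h3, h4⟩ := pade (F.map (Int.castRingHom ℚ)) d (hF.map _)
    (by rw [natDegree_map_eq_of_injective hinj, hd]) hns n hn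
  obtain ⟨D0, Q0, hD0, hQ0⟩ := exists_int P0
  obtain ⟨D1, Q1, hD1, hQ1⟩ := exists_int P1
  have hD0' : (D0 : ℚ) ≠ 0 := by exact_mod_cast hD0
  have hD1' : (D1 : ℚ) ≠ 0 := by exact_mod_cast hD1
  have e0 : (C D1 * Q0).map (Int.castRingHom ℚ) = C ((D0 : ℚ) * D1) * P0 := by
    rw [Polynomial.map_mul, hQ0, map_C, C_mul]
    simp only [eq_intCast]
    ring
  have e1 : (C D0 * Q1).map (Int.castRingHom ℚ) = C ((D0 : ℚ) * D1) * P1 := by
    rw [Polynomial.map_mul, hQ1, map_C, C_mul]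
    simp only [eq_intCast]
    ring
  have hDD : (D0 : ℚ) * D1 ≠ 0 := mul_ne_zero hD0' hD1'
  have eH : ((C D1 * Q0) ^ 2 - (C D0 * Q1) ^ 2 * F).map (Int.castRingHom ℚ)
      = C (((D0 : ℚ) * D1) ^ 2) * (P0 ^ 2 - P1 ^ 2 * F.map (Int.castRingHom ℚ)) := by
    rw [Polynomial.map_sub, Polynomial.map_mul, Polynomial.map_pow, Polynomial.map_pow, e0, e1,
      C_pow]
    ring
  refine ⟨m, hm, C D1 * Q0, C D0 * Q1, ?_, ?_, ?_, ?_⟩
  · rw [← natDegree_map_eq_of_injective hinj, e1, natDegree_C_mul hDD, h2]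
  · rw [← natDegree_map_eq_of_injective hinj, e0, natDegree_C_mul hDD, h3]
  · intro h
    rw [h, Polynomial.map_zero] at eH
    have h5 : C (((D0 : ℚ) * D1) ^ 2) ≠ 0 := by
      rw [Ne, C_eq_zero]
      exact pow_ne_zero _ hDD
    have h6 := (mul_eq_zero.1 eH.symm).resolve_left h5
    exact hns P0 P1 h1 (sub_eq_zero.1 h6)
  · rw [← natDegree_map_eq_of_injective hinj, eH, natDegree_C_mul (pow_ne_zero _ hDD)]
    exact h4

end Pool.Agent.H354R2.Dio
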