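import Pool.Agent.H354R2.Dio.Pade

/-!
Module DIO (TEAM-J), part 2: Runge's method at the real place and at the place 2.
-/

set_option autoImplicit false
open Polynomial Finset

namespace Pool.Agent.H354R2.Dio

/-- homogenisation -/
def hom (P : ℤ[X]) (n : ℕ) (w q : ℤ) : ℤ := ∑ i ∈ range (n + 1), P.coeff i * w ^ i * q ^ (n - i)

theorem hom_cast (P : ℤ[X]) (n : ℕ) (hP : P.natDegree ≤ n) (w q : ℤ) (hq : q ≠ 0) :
    ((hom P n w q : ℤ) : ℚ) = (q : ℚ) ^ n * aeval ((w : ℚ) / q) P := by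
  have hq' : (q : ℚ) ≠ 0 := by exact_mod_cast hq
  rw [aeval_eq_sum_range' (Nat.lt_succ_of_le hP), Finset.mul_sum, hom]
  push_cast
  refine Finset.sum_congr rfl fun i hi => ?_
  rw [mem_range] at hi
  have h1 : (q : ℚ) ^ n = (q : ℚ) ^ (n - i) * (q : ℚ) ^ i := by
    rw [← pow_add]
    congr 1
    omega
  rw [zsmul_eq_mul, h1, div_pow]
  field_simp

theorem hom_modEq (P : ℤ[X]) (n : ℕ) (w q : ℤ) : q ∣ hom P n w q - P.coeff n * w ^ n := by
  rw [hom, sum_range_succ, Nat.sub_self, pow_zero, mul_one, add_sub_cancel_right]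
  refine Finset.dvd_sum fun i hi => ?_
  rw [mem_range] at hi
  exact Dvd.dvd.mul_left (dvd_pow_self q (by omega)) _

theorem aeval_upper (P : ℤ[X]) (n : ℕ) (hP : P.natDegree ≤ n) :
    ∃ C : ℚ, 0 < C ∧ ∀ x : ℚ, |aeval x P| ≤ C * (max 1 |x|) ^ n := by
  refine ⟨1 + ∑ i ∈ range (n + 1), |(P.coeff i : ℚ)|, ?_, ?_⟩
  · have : 0 ≤ ∑ i ∈ range (n + 1), |(P.coeff i : ℚ)| := Finset.sum_nonneg fun i _ => abs_nonneg _
    linarith
  · intro x
    rw [aeval_eq_sum_range' (Nat.lt_succ_of_le hP)]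
    have h1 : (1 : ℚ) ≤ max 1 |x| := le_max_left _ _
    have h2 : |∑ i ∈ range (n + 1), P.coeff i • x ^ i|
        ≤ ∑ i ∈ range (n + 1), |(P.coeff i : ℚ)| * (max 1 |x|) ^ n := by
      refine (abs_sum_le_sum_abs _ _).trans (Finset.sum_le_sum fun i hi => ?_)
      rw [mem_range] at hi
      rw [zsmul_eq_mul, abs_mul, abs_pow]
      refine mul_le_mul_of_nonneg_left ?_ (abs_nonneg _)
      calc |x| ^ i ≤ (max 1 |x|) ^ i := pow_le_pow_left₀ (abs_nonneg _) (le_max_right _ _) _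
        _ ≤ (max 1 |x|) ^ n := pow_le_pow_right₀ h1 (by omega)
    rw [← Finset.sum_mul] at h2
    refine h2.trans (mul_le_mul_of_nonneg_right (by linarith) (by positivity))

theorem aeval_lower (P : ℤ[X]) (n : ℕ) (hP : P.natDegree = n) (h0 : P ≠ 0) :
    ∃ c : ℚ, 0 < c ∧ ∃ R : ℚ, 1 ≤ R ∧ ∀ x : ℚ, R ≤ |x| → c * |x| ^ n ≤ |aeval x P| := by
  set K : ℚ := ∑ i ∈ range n, |(P.coeff i : ℚ)| with hK
  have hK0 : 0 ≤ K := Finset.sum_nonneg fun i _ => abs_nonneg _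
  refine ⟨1 / 2, by norm_num, 2 * K + 1, by linarith, ?_⟩
  intro x hx
  have hx1 : 1 ≤ |x| := by linarith
  have hx0 : 0 < |x| := by linarith
  rw [aeval_eq_sum_range' (Nat.lt_succ_of_le hP.le), sum_range_succ]
  have ha : (1 : ℚ) ≤ |(P.coeff n : ℚ)| := by
    have h1 : P.coeff n ≠ 0 := by
      rw [← hP]
      exact leadingCoeff_ne_zero.2 h0
    have h2 : 1 ≤ |P.coeff n| := Int.one_le_abs h1
    exact_mod_cast h2
  have hsum : |x| * |∑ i ∈ range n, P.coeff i • x ^ i| ≤ K * |x| ^ n := by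
    have h3 : |∑ i ∈ range n, P.coeff i • x ^ i| ≤ ∑ i ∈ range n, |(P.coeff i : ℚ)| * |x| ^ i := by
      refine (abs_sum_le_sum_abs _ _).trans (Finset.sum_le_sum fun i hi => ?_)
      rw [zsmul_eq_mul, abs_mul, abs_pow]
    calc |x| * |∑ i ∈ range n, P.coeff i • x ^ i|
        ≤ |x| * ∑ i ∈ range n, |(P.coeff i : ℚ)| * |x| ^ i := mul_le_mul_of_nonneg_left h3 hx0.le
      _ ≤ K * |x| ^ n := by
          rw [hK, Finset.mul_sum, Finset.sum_mul]
          refine Finset.sum_le_sum fun i hi => ?_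
          rw [mem_range] at hi
          have : |x| ^ (i + 1) ≤ |x| ^ n := pow_le_pow_right₀ hx1 (by omega)
          calc |x| * (|(P.coeff i : ℚ)| * |x| ^ i) = |(P.coeff i : ℚ)| * |x| ^ (i + 1) := by ring
            _ ≤ |(P.coeff i : ℚ)| * |x| ^ n := mul_le_mul_of_nonneg_left this (abs_nonneg _)
  set S := ∑ i ∈ range n, P.coeff i • x ^ i with hS
  have hxn : 0 < |x| ^ n := by positivity
  have hS2 : |S| ≤ 1 / 2 * |x| ^ n := by
    have h4 : (2 * K + 1) * |S| ≤ K * |x| ^ n :=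
      (mul_le_mul_of_nonneg_right hx (abs_nonneg _)).trans hsum
    by_contra hcon
    push Not at hcon
    have h5 : (2 * K + 1) * (1 / 2 * |x| ^ n) < (2 * K + 1) * |S| :=
      mul_lt_mul_of_pos_left hcon (by linarith)
    nlinarith
  have h6 : |P.coeff n • x ^ n| = |(P.coeff n : ℚ)| * |x| ^ n := by
    rw [zsmul_eq_mul, abs_mul, abs_pow]
  have h7 : |x| ^ n ≤ |P.coeff n • x ^ n| := by
    rw [h6]
    nlinarith
  have h8 : |P.coeff n • x ^ n| - |S| ≤ |S + P.coeff n • x ^ n| := by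
    have := abs_sub_abs_le_abs_sub (P.coeff n • x ^ n) (-S)
    rw [abs_neg, sub_neg_eq_add, add_comm (P.coeff n • x ^ n) S] at this
    exact this
  linarith

/-- `q^d Y` is an integer -/
theorem integrality (F : ℤ[X]) (d : ℕ) (hF : F.natDegree = 2 * d) (w q : ℤ) (hq : 1 ≤ q) (Y : ℚ)
    (hY : Y ^ 2 = aeval ((w : ℚ) / q) F) : ∃ y : ℤ, (y : ℚ) = (q : ℚ) ^ d * Y := by
  have h1 : ((hom F (2 * d) w q : ℤ) : ℚ) = ((q : ℚ) ^ d * Y) * ((q : ℚ) ^ d * Y) := by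
    rw [hom_cast F (2 * d) hF.le w q (by omega), ← hY]
    ring
  have h2 : IsSquare ((hom F (2 * d) w q : ℤ) : ℚ) := ⟨_, h1⟩
  rw [Rat.isSquare_intCast_iff] at h2
  obtain ⟨y, hy⟩ := h2
  have h3 : (y : ℚ) * y = ((q : ℚ) ^ d * Y) * ((q : ℚ) ^ d * Y) := by
    rw [← h1, hy]
    push_cast
    ring
  rcases mul_self_eq_mul_self_iff.1 h3 with h | h
  · exact ⟨y, h⟩
  · exact ⟨-y, by rw [Int.cast_neg, h]; ring⟩

/-- the data of a Pade approximant -/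
structure Data (F P0 P1 : ℤ[X]) (d m : ℕ) : Prop where
  hF : F.natDegree = 2 * d
  h1 : P1.natDegree = m
  h0 : P0.natDegree = m + d
  hH : (P0 ^ 2 - P1 ^ 2 * F).natDegree + 1 ≤ d

/-- the two integers `A₊, A₋` -/
theorem exists_A {F P0 P1 : ℤ[X]} {d m : ℕ} (D : Data F P0 P1 d m) (w q : ℤ) (hq : 1 ≤ q) (Y : ℚ)
    (hY : Y ^ 2 = aeval ((w : ℚ) / q) F)
    (hne : aeval ((w : ℚ) / q) (P0 ^ 2 - P1 ^ 2 * F) ≠ 0) :
    ∃ A B : ℤ, A ≠ 0 ∧ B ≠ 0 ∧
      (A : ℚ) = (q : ℚ) ^ (m + d) * (aeval ((w : ℚ) / q) P0 + aeval ((w : ℚ) / q) P1 * Y) ∧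
      (B : ℚ) = (q : ℚ) ^ (m + d) * (aeval ((w : ℚ) / q) P0 - aeval ((w : ℚ) / q) P1 * Y) ∧
      A + B = 2 * hom P0 (m + d) w q ∧
      A * B = q ^ (2 * m + d + 1) * hom (P0 ^ 2 - P1 ^ 2 * F) (d - 1) w q := by
  obtain ⟨y, hy⟩ := integrality F d D.hF w q hq Y hY
  have hq0 : q ≠ 0 := by omega
  have hq' : (q : ℚ) ≠ 0 := by exact_mod_cast hq0
  set x : ℚ := (w : ℚ) / q with hx
  have e0 := hom_cast P0 (m + d) D.h0.le w q hq0
  have e1 := hom_cast P1 m D.h1.le w q hq0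
  have eA : ((hom P0 (m + d) w q + hom P1 m w q * y : ℤ) : ℚ)
      = (q : ℚ) ^ (m + d) * (aeval x P0 + aeval x P1 * Y) := by
    push_cast
    rw [e0, e1, hy]
    ring
  have eB : ((hom P0 (m + d) w q - hom P1 m w q * y : ℤ) : ℚ)
      = (q : ℚ) ^ (m + d) * (aeval x P0 - aeval x P1 * Y) := by
    push_cast
    rw [e0, e1, hy]
    ring
  have eH : aeval x (P0 ^ 2 - P1 ^ 2 * F) = (aeval x P0) ^ 2 - (aeval x P1) ^ 2 * Y ^ 2 := by
    rw [map_sub, map_mul, map_pow, map_pow, hY]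
  have eAB : ((hom P0 (m + d) w q + hom P1 m w q * y : ℤ) : ℚ) *
      ((hom P0 (m + d) w q - hom P1 m w q * y : ℤ) : ℚ)
      = (q : ℚ) ^ (2 * (m + d)) * aeval x (P0 ^ 2 - P1 ^ 2 * F) := by
    rw [eA, eB, eH]
    ring
  have hprod : ((hom P0 (m + d) w q + hom P1 m w q * y : ℤ) : ℚ) *
      ((hom P0 (m + d) w q - hom P1 m w q * y : ℤ) : ℚ) ≠ 0 := by
    rw [eAB]
    exact mul_ne_zero (pow_ne_zero _ hq') hne
  refine ⟨hom P0 (m + d) w q + hom P1 m w q * y, hom P0 (m + d) w q - hom P1 m w q * y,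
    ?_, ?_, eA, eB, by ring, ?_⟩
  · intro h
    rw [h] at hprod
    simp at hprod
  · intro h
    rw [h] at hprod
    simp at hprod
  · have h4 := hom_cast (P0 ^ 2 - P1 ^ 2 * F) (d - 1) (by have := D.hH; omega) w q hq0
    have h5 : (((hom P0 (m + d) w q + hom P1 m w q * y) * (hom P0 (m + d) w q - hom P1 m w q * y) : ℤ)
        : ℚ) = ((q ^ (2 * m + d + 1) * hom (P0 ^ 2 - P1 ^ 2 * F) (d - 1) w q : ℤ) : ℚ) := by
      rw [Int.cast_mul, eAB, Int.cast_mul, h4, Int.cast_pow, ← mul_assoc, ← pow_add]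
      congr 2
      have := D.hH
      omega
    exact_mod_cast h5

/-- Runge at the real place. -/
theorem rungeII {F P0 P1 : ℤ[X]} {d m : ℕ} (D : Data F P0 P1 d m) (hd : 1 ≤ d) :
    ∃ C : ℚ, 0 < C ∧ ∀ (w q : ℤ) (Y : ℚ), 1 ≤ q → Y ^ 2 = aeval ((w : ℚ) / q) F →
      aeval ((w : ℚ) / q) (P0 ^ 2 - P1 ^ 2 * F) ≠ 0 →
      |(w : ℚ) / q| ^ (m + 1) ≤ C * (q : ℚ) ^ (m + d) := by
  have hP0 : P0 ≠ 0 := by
    intro h
    have := D.h0
    rw [h, natDegree_zero] at this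
    omega
  obtain ⟨c, hc, R, hR, hlow⟩ := aeval_lower P0 (m + d) D.h0 hP0
  obtain ⟨CH, hCH, hup⟩ := aeval_upper (P0 ^ 2 - P1 ^ 2 * F) (d - 1) (by have := D.hH; omega)
  refine ⟨R ^ (m + 1) + CH / c, by positivity, ?_⟩
  intro w q Y hq hY hne
  set x : ℚ := (w : ℚ) / q with hx
  have hq1 : (1 : ℚ) ≤ q := by exact_mod_cast hq
  have hqn : (1 : ℚ) ≤ (q : ℚ) ^ (m + d) := one_le_pow₀ hq1
  have hq0 : (0 : ℚ) < q := by linarith
  have hdiv : 0 < CH / c := by positivity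
  rcases lt_or_ge |x| R with hxR | hxR
  · have h1 : |x| ^ (m + 1) ≤ R ^ (m + 1) := pow_le_pow_left₀ (abs_nonneg _) hxR.le _
    have h2 : 0 < R ^ (m + 1) := by positivity
    nlinarith
  · obtain ⟨A, B, hA, hB, eA, eB, -, -⟩ := exists_A D w q hq Y hY hne
    have hx1 : 1 ≤ |x| := hR.trans hxR
    have hx0 : 0 < |x| := by linarith
    have eH : aeval x (P0 ^ 2 - P1 ^ 2 * F) = (aeval x P0) ^ 2 - (aeval x P1) ^ 2 * Y ^ 2 := by
      rw [map_sub, map_mul, map_pow, map_pow, hY]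
    have eAB : (A : ℚ) * B = (q : ℚ) ^ (2 * (m + d)) * aeval x (P0 ^ 2 - P1 ^ 2 * F) := by
      rw [eA, eB, eH]
      ring
    have hA1 : (1 : ℚ) ≤ |(A : ℚ)| := by exact_mod_cast Int.one_le_abs hA
    have hB1 : (1 : ℚ) ≤ |(B : ℚ)| := by exact_mod_cast Int.one_le_abs hB
    have hsum : (A : ℚ) + B = 2 * ((q : ℚ) ^ (m + d) * aeval x P0) := by
      rw [eA, eB]
      ring
    have h1 : 2 * ((q : ℚ) ^ (m + d) * (c * |x| ^ (m + d))) ≤ |(A : ℚ)| + |(B : ℚ)| := by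
      calc 2 * ((q : ℚ) ^ (m + d) * (c * |x| ^ (m + d)))
          ≤ 2 * ((q : ℚ) ^ (m + d) * |aeval x P0|) := by
            have := hlow x hxR
            have h0 : 0 ≤ (q : ℚ) ^ (m + d) := by positivity
            have := mul_le_mul_of_nonneg_left this h0
            linarith
        _ = |(A : ℚ) + B| := by
            rw [hsum, abs_mul, abs_mul, abs_of_pos (by positivity : (0 : ℚ) < (q : ℚ) ^ (m + d))]
            norm_num
        _ ≤ |(A : ℚ)| + |(B : ℚ)| := abs_add_le _ _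
    have h2 : |(A : ℚ)| + |(B : ℚ)| ≤ 2 * (|(A : ℚ)| * |(B : ℚ)|) := by nlinarith
    have h3 : |(A : ℚ)| * |(B : ℚ)| ≤ (q : ℚ) ^ (2 * (m + d)) * (CH * |x| ^ (d - 1)) := by
      rw [← abs_mul, eAB, abs_mul, abs_of_pos (by positivity : (0 : ℚ) < (q : ℚ) ^ (2 * (m + d)))]
      refine mul_le_mul_of_nonneg_left ?_ (by positivity)
      have := hup x
      rwa [max_eq_right hx1] at this
    have h4 : (q : ℚ) ^ (m + d) * (c * |x| ^ (m + d))
        ≤ (q : ℚ) ^ (2 * (m + d)) * (CH * |x| ^ (d - 1)) := by linarith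
    have h5 : |x| ^ (m + d) = |x| ^ (m + 1) * |x| ^ (d - 1) := by
      rw [← pow_add]
      congr 1
      omega
    have h6 : (q : ℚ) ^ (2 * (m + d)) = (q : ℚ) ^ (m + d) * (q : ℚ) ^ (m + d) := by
      rw [← pow_add]
      congr 1
      omega
    have h7 : ((q : ℚ) ^ (m + d) * |x| ^ (d - 1)) * (c * |x| ^ (m + 1))
        ≤ ((q : ℚ) ^ (m + d) * |x| ^ (d - 1)) * (CH * (q : ℚ) ^ (m + d)) := by
      rw [h5, h6] at h4
      linarith
    have h8 : c * |x| ^ (m + 1) ≤ CH * (q : ℚ) ^ (m + d) :=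
      le_of_mul_le_mul_left h7 (by positivity)
    have h9 : |x| ^ (m + 1) ≤ CH / c * (q : ℚ) ^ (m + d) := by
      rw [div_mul_eq_mul_div, le_div_iff₀ hc]
      linarith
    have h10 : 0 < R ^ (m + 1) := by positivity
    nlinarith

/-- dyadic divisibility -/
theorem two_pow_dvd (N : ℕ) : ∀ (e : ℕ) (x y : ℤ), ¬ (2 : ℤ) ^ (e + 1) ∣ y → (2 : ℤ) ^ N ∣ x * y →
    (2 : ℤ) ^ N ∣ x * 2 ^ e := by
  intro e
  induction e with
  | zero =>
    intro x y hy h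
    rw [pow_zero, mul_one]
    rw [zero_add, pow_one] at hy
    exact (Int.prime_two).pow_dvd_of_dvd_mul_right N hy h
  | succ e ih =>
    intro x y hy h
    by_cases h2 : (2 : ℤ) ∣ y
    · obtain ⟨z, rfl⟩ := h2
      have hz : ¬ (2 : ℤ) ^ (e + 1) ∣ z := by
        intro hz
        apply hy
        rw [pow_succ' (2 : ℤ) (e + 1)]
        exact mul_dvd_mul_left 2 hz
      have := ih (x * 2) z hz (by rw [mul_assoc]; exact h)
      rwa [mul_assoc, ← pow_succ'] at this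
    · have := (Int.prime_two).pow_dvd_of_dvd_mul_right N h2 h
      exact this.mul_right _

/-- Runge at the place `2`. -/
theorem rungeI {F P0 P1 : ℤ[X]} {d m : ℕ} (D : Data F P0 P1 d m) (hd : 1 ≤ d) :
    ∃ C : ℚ, 0 < C ∧ ∃ k0 : ℕ, ∀ (w : ℤ) (k : ℕ) (Y : ℚ), k0 ≤ k → Odd w →
      Y ^ 2 = aeval ((w : ℚ) / ((2 ^ k : ℤ) : ℚ)) F →
      aeval ((w : ℚ) / ((2 ^ k : ℤ) : ℚ)) (P0 ^ 2 - P1 ^ 2 * F) ≠ 0 →
      ((2 : ℚ) ^ k) ^ (m + 1) ≤ C * (max 1 |(w : ℚ) / ((2 ^ k : ℤ) : ℚ)|) ^ (m + d) := by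
  have hP0 : P0 ≠ 0 := by
    intro h
    have := D.h0
    rw [h, natDegree_zero] at this
    omega
  obtain ⟨C0, hC0, hup0⟩ := aeval_upper P0 (m + d) D.h0.le
  obtain ⟨C1, hC1, hup1⟩ := aeval_upper P1 m D.h1.le
  obtain ⟨C2, hC2, hup2⟩ := aeval_upper F (2 * d) D.hF.le
  set a : ℤ := P0.coeff (m + d) with ha
  have ha0 : a ≠ 0 := by
    rw [ha, ← D.h0]
    exact leadingCoeff_ne_zero.2 hP0
  set e : ℕ := (2 * a).natAbs with he
  have hea : ¬ (2 : ℤ) ^ (e + 1) ∣ 2 * a := by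
    intro h
    have h1 := Int.natAbs_dvd_natAbs.2 h
    have h2 := Nat.le_of_dvd (Int.natAbs_pos.2 (mul_ne_zero two_ne_zero ha0)) h1
    rw [Int.natAbs_pow] at h2
    have h3 : (2 * a).natAbs + 1 < 2 ^ ((2 * a).natAbs + 1) := Nat.lt_two_pow_self
    have h4 : (2 : ℤ).natAbs ^ (e + 1) = 2 ^ ((2 * a).natAbs + 1) := rfl
    rw [h4] at h2
    exact absurd (lt_of_lt_of_le h3 h2) (by omega)
  refine ⟨2 ^ e * (C0 + C1 * (1 + C2)), by positivity, e + 1, ?_⟩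
  intro w k Y hk hw hY hne
  set q : ℤ := 2 ^ k with hq
  have hq1 : 1 ≤ q := by rw [hq]; exact one_le_pow₀ (by norm_num)
  have hq1' : (1 : ℚ) ≤ (q : ℚ) := by exact_mod_cast hq1
  have hq0 : (0 : ℚ) < (q : ℚ) := by linarith
  have hqc : (q : ℚ) = 2 ^ k := by rw [hq]; push_cast; rfl
  set x : ℚ := (w : ℚ) / (q : ℚ) with hx
  obtain ⟨A, B, hA, hB, eA, eB, hsum, hprod⟩ := exists_A D w q hq1 Y hY hne
  set xx : ℚ := max 1 |x| with hxx
  have hxx1 : 1 ≤ xx := le_max_left _ _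
  -- bound for Y
  have hYb : |Y| ≤ (1 + C2) * xx ^ d := by
    have h1 : |Y| ^ 2 ≤ ((1 + C2) * xx ^ d) ^ 2 := by
      rw [sq_abs, hY]
      calc aeval x F ≤ |aeval x F| := le_abs_self _
        _ ≤ C2 * xx ^ (2 * d) := hup2 x
        _ ≤ ((1 + C2) * xx ^ d) ^ 2 := by
            have : xx ^ (2 * d) = (xx ^ d) ^ 2 := by rw [← pow_mul, mul_comm]
            rw [this, mul_pow]
            refine mul_le_mul_of_nonneg_right ?_ (by positivity)
            nlinarith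
    exact (pow_le_pow_iff_left₀ (abs_nonneg _) (by positivity) two_ne_zero).1 h1
  have hPY : |aeval x P1 * Y| ≤ C1 * (1 + C2) * xx ^ (m + d) := by
    rw [abs_mul]
    calc |aeval x P1| * |Y| ≤ (C1 * xx ^ m) * ((1 + C2) * xx ^ d) :=
          mul_le_mul (hup1 x) hYb (abs_nonneg _) (by positivity)
      _ = C1 * (1 + C2) * xx ^ (m + d) := by rw [pow_add]; ring
  have hAb : |(A : ℚ)| ≤ (q : ℚ) ^ (m + d) * ((C0 + C1 * (1 + C2)) * xx ^ (m + d)) := by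
    rw [eA, abs_mul, abs_of_pos (by positivity : (0 : ℚ) < (q : ℚ) ^ (m + d))]
    refine mul_le_mul_of_nonneg_left ?_ (by positivity)
    calc |aeval x P0 + aeval x P1 * Y| ≤ |aeval x P0| + |aeval x P1 * Y| := abs_add_le _ _
      _ ≤ C0 * xx ^ (m + d) + C1 * (1 + C2) * xx ^ (m + d) := add_le_add (hup0 x) hPY
      _ = _ := by ring
  have hBb : |(B : ℚ)| ≤ (q : ℚ) ^ (m + d) * ((C0 + C1 * (1 + C2)) * xx ^ (m + d)) := by
    rw [eB, abs_mul, abs_of_pos (by positivity : (0 : ℚ) < (q : ℚ) ^ (m + d))]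
    refine mul_le_mul_of_nonneg_left ?_ (by positivity)
    calc |aeval x P0 - aeval x P1 * Y| ≤ |aeval x P0| + |aeval x P1 * Y| := abs_sub _ _
      _ ≤ C0 * xx ^ (m + d) + C1 * (1 + C2) * xx ^ (m + d) := add_le_add (hup0 x) hPY
      _ = _ := by ring
  -- 2-adic part
  have hnd : ¬ (2 : ℤ) ^ (e + 1) ∣ A + B := by
    intro h
    apply hea
    rw [hsum] at h
    have h1 : (2 : ℤ) ^ (e + 1) ∣ 2 * (hom P0 (m + d) w q - a * w ^ (m + d)) := by
      refine Dvd.dvd.mul_left ?_ 2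
      exact (pow_dvd_pow 2 hk).trans (hom_modEq P0 (m + d) w q)
    have h2 : (2 : ℤ) ^ (e + 1) ∣ 2 * a * w ^ (m + d) := by
      have := dvd_sub h h1
      have e3 : 2 * hom P0 (m + d) w q - 2 * (hom P0 (m + d) w q - a * w ^ (m + d))
          = 2 * a * w ^ (m + d) := by ring
      rwa [e3] at this
    have hw2 : ¬ (2 : ℤ) ∣ w ^ (m + d) := by
      intro h3
      have h4 := Int.prime_two.dvd_of_dvd_pow h3
      rw [← even_iff_two_dvd] at h4
      exact (Int.not_even_iff_odd.2 hw) h4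
    exact (Int.prime_two).pow_dvd_of_dvd_mul_right (e + 1) hw2 h2
  -- main estimate for either of the two factors
  have key : ∀ U V : ℤ, U ≠ 0 → ¬ (2 : ℤ) ^ (e + 1) ∣ V →
      (2 : ℤ) ^ (k * (2 * m + d + 1)) ∣ U * V →
      |(U : ℚ)| ≤ (q : ℚ) ^ (m + d) * ((C0 + C1 * (1 + C2)) * xx ^ (m + d)) →
      ((2 : ℚ) ^ k) ^ (m + 1) ≤ 2 ^ e * (C0 + C1 * (1 + C2)) * xx ^ (m + d) := by
    intro U V hU hV hUV hUb
    have h1 := two_pow_dvd _ e U V hV hUV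
    have h2 : (2 : ℤ) ^ (k * (2 * m + d + 1)) ≤ |U * 2 ^ e| := by
      refine Int.le_of_dvd ?_ ((dvd_abs _ _).2 h1)
      exact abs_pos.2 (mul_ne_zero hU (by positivity))
    have h3 : (q : ℚ) ^ (2 * m + d + 1) ≤ |(U : ℚ)| * 2 ^ e := by
      have h4 : (((2 : ℤ) ^ (k * (2 * m + d + 1)) : ℤ) : ℚ) ≤ ((|U * 2 ^ e| : ℤ) : ℚ) := by
        exact_mod_cast h2
      rw [Int.cast_abs, Int.cast_mul, abs_mul] at h4
      push_cast at h4
      rw [pow_mul, ← hqc, abs_of_pos (by positivity : (0 : ℚ) < 2 ^ e)] at h4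
      exact h4
    have h5 : (q : ℚ) ^ (2 * m + d + 1) = (q : ℚ) ^ (m + d) * (q : ℚ) ^ (m + 1) := by
      rw [← pow_add]
      congr 1
      omega
    have h6 : (q : ℚ) ^ (m + d) * (q : ℚ) ^ (m + 1)
        ≤ (q : ℚ) ^ (m + d) * (2 ^ e * (C0 + C1 * (1 + C2)) * xx ^ (m + d)) := by
      rw [← h5]
      refine h3.trans ?_
      have h2e : (0 : ℚ) ≤ 2 ^ e := by positivity
      have := mul_le_mul_of_nonneg_right hUb h2e
      linarith
    have h7 := le_of_mul_le_mul_left h6 (by positivity)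
    rwa [hqc] at h7
  have hdvd : (2 : ℤ) ^ (k * (2 * m + d + 1)) ∣ A * B := by
    rw [hprod, pow_mul]
    exact dvd_mul_right _ _
  by_cases hBd : (2 : ℤ) ^ (e + 1) ∣ B
  · have hAd : ¬ (2 : ℤ) ^ (e + 1) ∣ A := fun h => hnd (dvd_add h hBd)
    exact key B A hB hAd (by rw [mul_comm B A]; exact hdvd) hBb
  · exact key A B hA hBd hdvd hAb

end Pool.Agent.H354R2.Dio
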